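import Mathlib

set_option autoImplicit false

namespace Pool.Agent.Results.MP_3738f3_ag.StabilityInterval

open MvPolynomial

abbrev RR := MvPolynomial (Fin 2) ℂ

/-- homogeneous forms of integer degree d -/
def Hd (d : ℤ) : Submodule ℂ RR where
  carrier := {p | p.IsHomogeneous d.toNat ∧ (d < 0 → p = 0)}
  add_mem' := by
    rintro a b ⟨ha, ha'⟩ ⟨hb, hb'⟩
    exact ⟨ha.add hb, fun h => by rw [ha' h, hb' h, add_zero]⟩
  zero_mem' := ⟨isHomogeneous_zero _ _ _, fun _ => rfl⟩
  smul_mem' := by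
    rintro c a ⟨ha, ha'⟩
    refine ⟨?_, fun h => by rw [ha' h, smul_zero]⟩
    rw [MvPolynomial.smul_eq_C_mul]
    exact ha.C_mul c

theorem mem_Hd {d : ℤ} {p : RR} : p ∈ Hd d ↔ (p.IsHomogeneous d.toNat ∧ (d < 0 → p = 0)) := Iff.rfl

theorem Hd_mul {a b : ℤ} {p q : RR} (hp : p ∈ Hd a) (hq : q ∈ Hd b) : p * q ∈ Hd (a + b) := by
  rw [mem_Hd] at *
  by_cases ha : a < 0
  · rw [hp.2 ha, zero_mul]; exact ⟨isHomogeneous_zero _ _ _, fun _ => rfl⟩
  by_cases hb : b < 0
  · rw [hq.2 hb, mul_zero]; exact ⟨isHomogeneous_zero _ _ _, fun _ => rfl⟩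
  push Not at ha hb
  rw [Int.toNat_add ha hb]
  exact ⟨hp.1.mul hq.1, fun h => by omega⟩

noncomputable def degEquiv (n : ℕ) : {d : Fin 2 →₀ ℕ | d.degree = n} ≃ Fin (n + 1) where
  toFun d := ⟨d.1 0, by
    have h := d.2
    simp only [Set.mem_ofPred_eq, Finsupp.degree_eq_sum, Fin.sum_univ_two] at h
    omega⟩
  invFun i := ⟨Finsupp.single 0 i.1 + Finsupp.single 1 (n - i.1), by
    have := i.2
    simp only [Set.mem_ofPred_eq, Finsupp.degree_eq_sum, Fin.sum_univ_two, Finsupp.add_apply]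
    simp
    omega⟩
  left_inv d := by
    have h := d.2
    simp only [Set.mem_ofPred_eq, Finsupp.degree_eq_sum, Fin.sum_univ_two] at h
    ext i
    fin_cases i
    · simp
    · simp; omega
  right_inv i := by
    ext
    simp

theorem finrank_hom (n : ℕ) : Module.finrank ℂ (homogeneousSubmodule (Fin 2) ℂ n) = n + 1 := by
  have h : homogeneousSubmodule (Fin 2) ℂ n = restrictSupport ℂ {d : Fin 2 →₀ ℕ | d.degree = n} :=
    homogeneousSubmodule_eq_finsupp_supported _ _ _
  rw [h]
  rw [Module.finrank_eq_nat_card_basis (basisRestrictSupport ℂ {d : Fin 2 →₀ ℕ | d.degree = n})]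
  rw [Nat.card_congr (degEquiv n)]
  simp

theorem Hd_neg {d : ℤ} (hd : d < 0) : Hd d = ⊥ := by
  ext p
  rw [mem_Hd, Submodule.mem_bot]
  constructor
  · intro h; exact h.2 hd
  · rintro rfl; exact ⟨isHomogeneous_zero _ _ _, fun _ => rfl⟩

theorem Hd_nonneg {d : ℤ} (hd : 0 ≤ d) : Hd d = homogeneousSubmodule (Fin 2) ℂ d.toNat := by
  ext p
  rw [mem_Hd, mem_homogeneousSubmodule]
  constructor
  · intro h; exact h.1
  · intro h; exact ⟨h, fun h' => by omega⟩

instance finHd (d : ℤ) : FiniteDimensional ℂ (Hd d) := by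
  by_cases hd : d < 0
  · rw [Hd_neg hd]; infer_instance
  · push Not at hd
    rw [Hd_nonneg hd]
    exact Module.finite_of_finrank_pos (by rw [finrank_hom]; omega)

theorem finrank_Hd (d : ℤ) : Module.finrank ℂ (Hd d) = (d + 1).toNat := by
  by_cases hd : d < 0
  · rw [Hd_neg hd]; simp; omega
  · push Not at hd
    rw [Hd_nonneg hd, finrank_hom]; omega

/-- sections of a sum of line bundles -/
def HE {ι : Type} (e : ι → ℤ) : Submodule ℂ (ι → RR) where
  carrier := {s | ∀ i, s i ∈ Hd (e i)}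
  add_mem' := fun ha hb i => (Hd _).add_mem (ha i) (hb i)
  zero_mem' := fun i => (Hd _).zero_mem
  smul_mem' := fun c _ ha i => (Hd _).smul_mem c (ha i)

theorem mem_HE {ι : Type} {e : ι → ℤ} {s : ι → RR} : s ∈ HE e ↔ ∀ i, s i ∈ Hd (e i) := Iff.rfl

def HEequiv {ι : Type} (e : ι → ℤ) : HE e ≃ₗ[ℂ] (∀ i, Hd (e i)) where
  toFun s := fun i => ⟨s.1 i, s.2 i⟩
  map_add' _ _ := rfl
  map_smul' _ _ := rfl
  invFun t := ⟨fun i => (t i).1, fun i => (t i).2⟩
  left_inv _ := rfl
  right_inv _ := rfl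

instance finHE {ι : Type} [Fintype ι] (e : ι → ℤ) : FiniteDimensional ℂ (HE e) :=
  Module.Finite.equiv (HEequiv e).symm

theorem finrank_HE {ι : Type} [Fintype ι] (e : ι → ℤ) :
    Module.finrank ℂ (HE e) = ∑ i, (e i + 1).toNat := by
  rw [LinearEquiv.finrank_eq (HEequiv e), Module.finrank_pi_fintype]
  simp [finrank_Hd]




/-- multiplication by a matrix -/
noncomputable def mulMap {n m : Type} [Fintype m] (M : n → m → RR) : (m → RR) →ₗ[ℂ] (n → RR) where
  toFun u := fun i => ∑ j, M i j * u j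
  map_add' u v := by
    funext i
    simp only [Pi.add_apply, mul_add, Finset.sum_add_distrib]
  map_smul' c u := by
    funext i
    simp only [Pi.smul_apply, RingHom.id_apply, Finset.smul_sum, mul_smul_comm]

/-- A coherent system `(E, V)` of type `(n, d, k)` on the complex projective line. By Grothendieck's
theorem every vector bundle of rank `n` on `ℙ¹` is `E = O(e 0) ⊕ ... ⊕ O(e (n-1))`; its space of
sections is `HE e`; `V` is a `k`-dimensional subspace of it. -/
structure CohSys (n : ℕ) (d : ℤ) (k : ℕ) where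
  /-- the splitting type of the bundle -/
  e : Fin n → ℤ
  /-- the degree of the bundle is `d` -/
  degE : ∑ i, e i = d
  /-- the space of sections -/
  V : Submodule ℂ (Fin n → RR)
  /-- `V` consists of sections of `E` -/
  le : V ≤ HE e
  /-- `V` has dimension `k` -/
  dim : Module.finrank ℂ V = k

/-- A subsystem `(E', V')` of a coherent system `(E, V)` on `ℙ¹` with `E' ≠ 0`. A nonzero coherent
subsheaf `E'` of `E` is a vector bundle, so `E' = O(b 0) ⊕ ... ⊕ O(b (m-1))` with `1 ≤ m`, embedded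
by a matrix `M` of forms, `M i j` of degree `e i - b j`, whose columns are linearly independent over
the polynomial ring; the sections of `E'` inside those of `E` are the image of `HE b` under `M`; and
`V'` is any subspace of `V` contained in `H⁰(E')`. -/
structure SubSys {n : ℕ} {d : ℤ} {k : ℕ} (S : CohSys n d k) where
  /-- the rank of `E'` -/
  m : ℕ
  /-- the splitting type of `E'` -/
  b : Fin m → ℤ
  /-- the inclusion `E' → E` -/
  M : Fin n → Fin m → RR
  /-- `E'` is not zero -/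
  pos : 1 ≤ m
  /-- the entries of `M` are forms of the right degree -/
  degM : ∀ i j, M i j ∈ Hd (S.e i - b j)
  /-- `M` is injective -/
  inj : LinearIndependent RR (fun j : Fin m => fun i : Fin n => M i j)
  /-- the space of sections of the subsystem -/
  V' : Submodule ℂ (Fin n → RR)
  /-- `V'` lies in `V` and in `H⁰(E')` -/
  le : V' ≤ S.V ⊓ (HE b).map (mulMap M)

/-- The degree of `E'`. -/
def SubSys.deg {n : ℕ} {d : ℤ} {k : ℕ} {S : CohSys n d k} (T : SubSys S) : ℤ := ∑ j, T.b j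

/-- The subsystem is the whole system: `(E', V') = (E, V)`. A subsheaf of the same rank and degree as
`E` is `E` itself. -/
def SubSys.IsWhole {n : ℕ} {d : ℤ} {k : ℕ} {S : CohSys n d k} (T : SubSys S) : Prop :=
  T.m = n ∧ T.deg = d ∧ T.V' = S.V

/-- `α`-stability: `μ_α(E', V') < μ_α(E, V)` for all subsystems with `E' ≠ 0` and
`(E', V') ≠ (E, V)`, where `μ_α = (degree + α * dimension) / rank`. -/
def CohSys.IsStable {n : ℕ} {d : ℤ} {k : ℕ} (S : CohSys n d k) (α : ℝ) : Prop :=
  ∀ T : SubSys S, ¬ T.IsWhole →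
    ((T.deg : ℝ) + α * (Module.finrank ℂ T.V' : ℝ)) / (T.m : ℝ) < ((d : ℝ) + α * (k : ℝ)) / (n : ℝ)

/-- The set `I(n, d, k)` of the real `α` for which an `α`-stable coherent system of type `(n, d, k)`
exists on `ℙ¹`. -/
def stabilitySet (n : ℕ) (d : ℤ) (k : ℕ) : Set ℝ :=
  {α | ∃ S : CohSys n d k, S.IsStable α}

theorem mulMap_inj {n m : Type} [Fintype m] (M : n → m → RR)
    (hM : LinearIndependent RR (fun j : m => fun i : n => M i j)) :
    Function.Injective (mulMap M) := by
  rw [← LinearMap.ker_eq_bot, LinearMap.ker_eq_bot']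
  intro u hu
  rw [Fintype.linearIndependent_iff] at hM
  have := hM u (by
    funext i
    have h := congrFun hu i
    simp only [mulMap, LinearMap.coe_mk, AddHom.coe_mk, Pi.zero_apply] at h
    simp only [Finset.sum_apply, Pi.smul_apply, smul_eq_mul, Pi.zero_apply]
    rw [← h]
    exact Finset.sum_congr rfl (fun j _ => mul_comm _ _))
  funext j
  exact this j

/-- the sections of the subsheaf -/
theorem span_eq_map {n m : ℕ} (b : Fin m → ℤ) (M : Fin n → Fin m → RR) :
    Submodule.span ℂ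
            {s : Fin n → MvPolynomial (Fin 2) ℂ | ∃ u : Fin m → MvPolynomial (Fin 2) ℂ,
              (∀ j, (u j).IsHomogeneous (b j).toNat ∧ (b j < 0 → u j = 0)) ∧
              s = fun i => ∑ j, M i j * u j} = (HE b).map (mulMap M) := by
  apply le_antisymm
  · rw [Submodule.span_le]
    rintro s ⟨u, hu, rfl⟩
    exact ⟨u, hu, rfl⟩
  · rintro s ⟨u, hu, rfl⟩
    exact Submodule.subset_span ⟨u, hu, rfl⟩

theorem inf_map_eq {n m : ℕ} (b : Fin m → ℤ) (M : Fin n → Fin m → RR)
    (V : Submodule ℂ (Fin n → RR)) :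
    V ⊓ (HE b).map (mulMap M) = (HE b ⊓ V.comap (mulMap M)).map (mulMap M) := by
  ext s
  constructor
  · rintro ⟨hs, u, hu, rfl⟩
    exact ⟨u, ⟨hu, hs⟩, rfl⟩
  · rintro ⟨u, ⟨hu, hs⟩, rfl⟩
    exact ⟨hs, u, hu, rfl⟩

theorem finrank_inf {n m : ℕ} (b : Fin m → ℤ) (M : Fin n → Fin m → RR)
    (V : Submodule ℂ (Fin n → RR))
    (hM : LinearIndependent RR (fun j : Fin m => fun i : Fin n => M i j)) :
    Module.finrank ℂ ↥(V ⊓ (HE b).map (mulMap M)) =
      Module.finrank ℂ ↥(HE b ⊓ V.comap (mulMap M)) := by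
  rw [inf_map_eq]
  exact (LinearEquiv.finrank_eq (Submodule.equivMapOfInjective (mulMap M) (mulMap_inj M hM) _)).symm

theorem cert_ineq {n q r : ℕ} (e : Fin n → ℤ) (V : Submodule ℂ (Fin n → RR))
    (f : Fin r → ℤ) (w : Fin q → Fin r → RR) (hw : ∀ l j, w l j ∈ Hd (f j))
    (hcert : ∀ G : Fin n → Fin r → RR, (∀ i j, G i j ∈ Hd (e i - f j)) →
      (∀ l, (fun i => ∑ j, G i j * w l j) ∈ V) → G = 0)
    {m : ℕ} (b : Fin m → ℤ) (M : Fin n → Fin m → RR)
    (hMd : ∀ i j, M i j ∈ Hd (e i - b j))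
    (hM : LinearIndependent RR (fun j : Fin m => fun i : Fin n => M i j)) :
    (∑ j, ∑ i, (b j - f i + 1).toNat) +
      q * Module.finrank ℂ ↥(V ⊓ (HE b).map (mulMap M)) ≤ q * ∑ j, (b j + 1).toNat := by
  rw [finrank_inf b M V hM]
  set K := HE b ⊓ V.comap (mulMap M) with hK
  have hKfin : FiniteDimensional ℂ K :=
    Submodule.finiteDimensional_of_le (inf_le_left : K ≤ HE b)
  let D := HE (fun p : Fin m × Fin r => b p.1 - f p.2)
  let T : (D × (Fin q → K)) →ₗ[ℂ] (Fin q → HE b) :=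
    { toFun := fun x l => ⟨(fun j => ∑ i, x.1.1 (j, i) * w l i) - (x.2 l).1, by
        refine (HE b).sub_mem ?_ (x.2 l).2.1
        intro j
        refine (Hd _).sum_mem (fun i _ => ?_)
        have h1 := x.1.2 (j, i)
        have h2 := Hd_mul h1 (hw l i)
        simpa using h2⟩
      map_add' := by
        intro x y
        funext l
        apply Subtype.ext
        funext j
        simp only [Prod.fst_add, Submodule.coe_add, Pi.add_apply, Prod.snd_add, Pi.sub_apply,
          add_mul, Finset.sum_add_distrib]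
        ring
      map_smul' := by
        intro c x
        funext l
        apply Subtype.ext
        funext j
        simp only [Prod.smul_fst, Submodule.coe_smul, Pi.smul_apply, Prod.smul_snd, Pi.sub_apply,
          RingHom.id_apply, smul_sub, Finset.smul_sum, smul_mul_assoc] }
  have hT : Function.Injective T := by
    rw [← LinearMap.ker_eq_bot, LinearMap.ker_eq_bot']
    intro x hx
    have hx' : ∀ l, (fun j => ∑ i, x.1.1 (j, i) * w l i) = (x.2 l).1 := by
      intro l
      have := congrArg Subtype.val (congrFun hx l)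
      exact sub_eq_zero.mp this
    have hG : (fun (i : Fin n) (k : Fin r) => ∑ j, M i j * x.1.1 (j, k)) = 0 := by
      apply hcert
      · intro i k
        refine (Hd _).sum_mem (fun j _ => ?_)
        have h2 := Hd_mul (hMd i j) (x.1.2 (j, k))
        have h3 : e i - b j + (b j - f k) = e i - f k := by ring
        simpa [h3] using h2
      · intro l
        have h1 : mulMap M (x.2 l).1 ∈ V := (x.2 l).2.2
        have h2 : (fun i => ∑ k, (∑ j, M i j * x.1.1 (j, k)) * w l k) = mulMap M (x.2 l).1 := by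
          rw [← hx' l]
          funext i
          simp only [mulMap, LinearMap.coe_mk, AddHom.coe_mk, Finset.sum_mul, Finset.mul_sum]
          rw [Finset.sum_comm]
          refine Finset.sum_congr rfl (fun j _ => Finset.sum_congr rfl (fun k _ => by ring))
        rw [h2]
        exact h1
    have hx1 : x.1 = 0 := by
      apply Subtype.ext
      funext p
      obtain ⟨j, k⟩ := p
      have h1 : mulMap M (fun j => x.1.1 (j, k)) = 0 := by
        funext i
        have := congrFun (congrFun hG i) k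
        simpa [mulMap] using this
      have h2 : (fun j => x.1.1 (j, k)) = 0 := mulMap_inj M hM (by rw [h1, map_zero])
      exact congrFun h2 j
    have hx2 : x.2 = 0 := by
      funext l
      apply Subtype.ext
      rw [← hx' l, hx1]
      funext j
      simp
    exact Prod.ext hx1 hx2
  have := LinearMap.finrank_le_finrank_of_injective hT
  rw [Module.finrank_prod, Module.finrank_pi_fintype, Module.finrank_pi_fintype] at this
  simp only [Finset.sum_const, Finset.card_univ, Fintype.card_fin, smul_eq_mul] at this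
  rw [finrank_HE, finrank_HE, Fintype.sum_prod_type] at this
  exact this




theorem hd0 {p : RR} (h : p ∈ Hd 0) : ∃ c : ℂ, p = C c := by
  have h1 : p.IsHomogeneous 0 := h.1
  refine ⟨coeff 0 p, ?_⟩
  have h2 := (totalDegree_zero_iff_isHomogeneous _).mpr h1
  exact totalDegree_eq_zero_iff_eq_C.mp h2

theorem hd1 {p : RR} (h : p ∈ Hd 1) : ∃ a b : ℂ, p = C a * X 0 + C b * X 1 := by
  have h1 : p.IsHomogeneous 1 := h.1
  refine ⟨coeff (Finsupp.single 0 1) p, coeff (Finsupp.single 1 1) p, ?_⟩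
  ext d
  by_cases hd : d.degree = 1
  · have hd' : d = Finsupp.single 0 1 ∨ d = Finsupp.single 1 1 := by
      rw [Finsupp.degree_eq_sum, Fin.sum_univ_two] at hd
      rcases Nat.eq_zero_or_pos (d 0) with h0 | h0
      · right; ext i; fin_cases i
        · simpa using h0
        · simp; omega
      · left; ext i; fin_cases i
        · simp; omega
        · simp; omega
    have hne : (Finsupp.single (1 : Fin 2) 1 : Fin 2 →₀ ℕ) ≠ Finsupp.single 0 1 := by
      intro h
      have := DFunLike.congr_fun h 0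
      simp at this
    rcases hd' with rfl | rfl
    · simp [coeff_C_mul, coeff_X, hne]
    · simp [coeff_C_mul, coeff_X, hne.symm]
  · rw [h1.coeff_eq_zero hd]
    have h3 : (C (coeff (Finsupp.single 0 1) p) * X 0 + C (coeff (Finsupp.single 1 1) p) * X 1 : RR).IsHomogeneous 1 :=
      (isHomogeneous_C_mul_X _ _).add (isHomogeneous_C_mul_X _ _)
    rw [h3.coeff_eq_zero hd]

theorem hdneg {d : ℤ} (hd : d < 0) {p : RR} (h : p ∈ Hd d) : p = 0 := h.2 hd

/-- comparing quadratic forms -/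
theorem quad_eq {a b c a' b' c' : ℂ}
    (h : (C a * X 0 ^ 2 + C b * (X 0 * X 1) + C c * X 1 ^ 2 : RR) =
      C a' * X 0 ^ 2 + C b' * (X 0 * X 1) + C c' * X 1 ^ 2) : a = a' ∧ b = b' ∧ c = c' := by
  have h1 := congrArg (MvPolynomial.eval ![1, 0]) h
  have h2 := congrArg (MvPolynomial.eval ![0, 1]) h
  have h3 := congrArg (MvPolynomial.eval ![1, 1]) h
  simp at h1 h2 h3
  subst h1 h2
  refine ⟨rfl, ?_, rfl⟩
  linear_combination h3

theorem lin_eq {a b a' b' : ℂ}
    (h : (C a * X 0 + C b * X 1 : RR) = C a' * X 0 + C b' * X 1) : a = a' ∧ b = b' := by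
  have h1 := congrArg (MvPolynomial.eval ![1, 0]) h
  have h2 := congrArg (MvPolynomial.eval ![0, 1]) h
  simp at h1 h2
  exact ⟨h1, h2⟩

noncomputable def Lam : ((Fin 8 → ℂ) × (Fin 8 → ℂ)) →ₗ[ℂ] (Fin 11 → RR) where
  toFun c := ![C (c.1 0) * X 0 ^ 2 + C (-(c.2 3 + c.1 6)) * X 1 ^ 2,
    C (c.1 1 - c.2 6) * X 0 ^ 2 + C (-(c.2 4 + c.1 7)) * X 1 ^ 2,
    C (c.1 2 - c.2 7) * X 0 ^ 2 + C (-(c.2 5)) * X 1 ^ 2,
    C (c.1 0) * X 0 + C (c.2 0) * X 1,
    C (c.1 1) * X 0 + C (c.2 1) * X 1,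
    C (c.1 2) * X 0 + C (c.2 2) * X 1,
    C (c.1 3) * X 0 + C (c.2 3) * X 1,
    C (c.1 4) * X 0 + C (c.2 4) * X 1,
    C (c.1 5) * X 0 + C (c.2 5) * X 1,
    C (c.1 6) * X 0 + C (c.2 6) * X 1,
    C (c.1 7) * X 0 + C (c.2 7) * X 1]
  map_add' c c' := by
    funext i
    fin_cases i <;> simp <;> ring
  map_smul' r c := by
    funext i
    fin_cases i <;> simp [MvPolynomial.smul_eq_C_mul] <;> ring

theorem Lam_inj : Function.Injective Lam := by
  rw [← LinearMap.ker_eq_bot, LinearMap.ker_eq_bot']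
  intro c hc
  have h3 := congrFun hc 3
  have h4 := congrFun hc 4
  have h5 := congrFun hc 5
  have h6 := congrFun hc 6
  have h7 := congrFun hc 7
  have h8 := congrFun hc 8
  have h9 := congrFun hc 9
  have h10 := congrFun hc 10
  have key : ∀ a b : ℂ, (C a * X 0 + C b * X 1 : RR) = 0 → a = 0 ∧ b = 0 := by
    intro a b h
    exact lin_eq (a' := 0) (b' := 0) (by rw [h]; simp)
  have k3 := key _ _ h3
  have k4 := key _ _ h4
  have k5 := key _ _ h5
  have k6 := key _ _ h6
  have k7 := key _ _ h7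
  have k8 := key _ _ h8
  have k9 := key _ _ h9
  have k10 := key _ _ h10
  apply Prod.ext
  · funext i
    fin_cases i
    · exact k3.1
    · exact k4.1
    · exact k5.1
    · exact k6.1
    · exact k7.1
    · exact k8.1
    · exact k9.1
    · exact k10.1
  · funext i
    fin_cases i
    · exact k3.2
    · exact k4.2
    · exact k5.2
    · exact k6.2
    · exact k7.2
    · exact k8.2
    · exact k9.2
    · exact k10.2

noncomputable def V0 : Submodule ℂ (Fin 11 → RR) := LinearMap.range Lam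

theorem finrank_V0 : Module.finrank ℂ V0 = 16 := by
  rw [V0, LinearMap.finrank_range_of_inj Lam_inj]
  simp

def e0 : Fin 11 → ℤ := ![2, 2, 2, 1, 1, 1, 1, 1, 1, 1, 1]

theorem V0_le : V0 ≤ HE e0 := by
  rintro s ⟨c, rfl⟩ i
  have h1 : ∀ a b : ℂ, (C a * X 0 + C b * X 1 : RR) ∈ Hd 1 := by
    intro a b
    exact ⟨(isHomogeneous_C_mul_X _ _).add (isHomogeneous_C_mul_X _ _), fun h => by omega⟩
  have h2 : ∀ a b : ℂ, (C a * X 0 ^ 2 + C b * X 1 ^ 2 : RR) ∈ Hd 2 := by
    intro a b
    exact ⟨(isHomogeneous_C_mul_X_pow _ _ 2).add (isHomogeneous_C_mul_X_pow _ _ 2), fun h => by omega⟩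
  fin_cases i
  · exact h2 _ _
  · exact h2 _ _
  · exact h2 _ _
  all_goals exact h1 _ _




theorem step (g C1 C2 : Fin 11 → RR) (hg : ∀ p, g p ∈ Hd (e0 p - 1))
    (hC1 : ∀ p, C1 p ∈ Hd (e0 p - 2)) (hC2 : ∀ p, C2 p ∈ Hd (e0 p - 2))
    (h1 : (fun p => g p * X 0 + C2 p * X 1 ^ 2) ∈ V0)
    (h2 : (fun p => g p * X 1 - C1 p * X 0 ^ 2) ∈ V0) :
    ∃ s t : ℂ, (∀ p, p ≠ 9 → p ≠ 10 → g p = 0) ∧ g 9 = C s ∧ g 10 = C t ∧
      C1 0 = 0 ∧ C1 1 = C s ∧ C1 2 = C t ∧ C2 0 = C (-s) ∧ C2 1 = C (-t) ∧ C2 2 = 0 := by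
  obtain ⟨c, hc⟩ := h1
  obtain ⟨d, hd⟩ := h2
  have hlow : ∀ p : Fin 11, e0 p = 1 → C1 p = 0 ∧ C2 p = 0 := by
    intro p hp
    exact ⟨hdneg (by omega) (hC1 p), hdneg (by omega) (hC2 p)⟩
  have hgc : ∀ p : Fin 11, e0 p = 1 → ∃ x : ℂ, g p = C x := by
    intro p hp
    have := hg p
    rw [hp] at this
    exact hd0 this
  have hgl : ∀ p : Fin 11, e0 p = 2 → ∃ x y : ℂ, g p = C x * X 0 + C y * X 1 := by
    intro p hp
    have := hg p
    rw [hp] at this
    exact hd1 this
  have hCc : ∀ p : Fin 11, e0 p = 2 → (∃ x : ℂ, C1 p = C x) ∧ (∃ x : ℂ, C2 p = C x) := by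
    intro p hp
    have h1 := hC1 p
    have h2 := hC2 p
    rw [hp] at h1 h2
    exact ⟨hd0 h1, hd0 h2⟩
  -- lower part
  have low : ∀ (p : Fin 11) (a b a' b' : ℂ), e0 p = 1 → Lam c p = C a * X 0 + C b * X 1 →
      Lam d p = C a' * X 0 + C b' * X 1 → g p = C a ∧ b = 0 ∧ a' = 0 ∧ b' = a := by
    intro p a b a' b' hp hca hda
    obtain ⟨x, hx⟩ := hgc p hp
    obtain ⟨z1, z2⟩ := hlow p hp
    have e1 := congrFun hc p
    have e2 := congrFun hd p
    beta_reduce at e1 e2
    rw [hca, hx, z2] at e1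
    rw [hda, hx, z1] at e2
    have l1 := lin_eq (a := a) (b := b) (a' := x) (b' := 0) (by rw [e1]; simp)
    have l2 := lin_eq (a := a') (b := b') (a' := 0) (b' := x) (by rw [e2]; simp)
    obtain ⟨l1a, l1b⟩ := l1
    obtain ⟨l2a, l2b⟩ := l2
    subst l1a
    exact ⟨hx, l1b, l2a, l2b⟩
  have q3 := low 3 (c.1 0) (c.2 0) (d.1 0) (d.2 0) rfl rfl rfl
  have q4 := low 4 (c.1 1) (c.2 1) (d.1 1) (d.2 1) rfl rfl rfl
  have q5 := low 5 (c.1 2) (c.2 2) (d.1 2) (d.2 2) rfl rfl rfl
  have q6 := low 6 (c.1 3) (c.2 3) (d.1 3) (d.2 3) rfl rfl rfl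
  have q7 := low 7 (c.1 4) (c.2 4) (d.1 4) (d.2 4) rfl rfl rfl
  have q8 := low 8 (c.1 5) (c.2 5) (d.1 5) (d.2 5) rfl rfl rfl
  have q9 := low 9 (c.1 6) (c.2 6) (d.1 6) (d.2 6) rfl rfl rfl
  have q10 := low 10 (c.1 7) (c.2 7) (d.1 7) (d.2 7) rfl rfl rfl
  -- upper part
  have upp : ∀ (p : Fin 11) (a b a' b' : ℂ), e0 p = 2 →
      Lam c p = C a * X 0 ^ 2 + C b * X 1 ^ 2 →
      Lam d p = C a' * X 0 ^ 2 + C b' * X 1 ^ 2 →
      g p = 0 ∧ a = 0 ∧ b' = 0 ∧ C2 p = C b ∧ C1 p = C (-a') := by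
    intro p a b a' b' hp hca hda
    obtain ⟨x, y, hx⟩ := hgl p hp
    obtain ⟨⟨k, hk⟩, ⟨l, hl⟩⟩ := hCc p hp
    have e1 := congrFun hc p
    have e2 := congrFun hd p
    beta_reduce at e1 e2
    rw [hca, hx, hl] at e1
    rw [hda, hx, hk] at e2
    have l1 := quad_eq (a := a) (b := 0) (c := b) (a' := x) (b' := y) (c' := l)
      (by simp only [map_zero]; linear_combination e1)
    have l2 := quad_eq (a := a') (b := 0) (c := b') (a' := -k) (b' := x) (c' := y)
      (by simp only [map_zero, map_neg]; linear_combination e2)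
    obtain ⟨l1a, l1b, l1c⟩ := l1
    obtain ⟨l2a, l2b, l2c⟩ := l2
    subst l1b l2b
    refine ⟨by rw [hx]; simp, l1a, l2c, by rw [hl, l1c], by rw [hk, l2a]; simp⟩
  have p0 := upp 0 (c.1 0) (-(c.2 3 + c.1 6)) (d.1 0) (-(d.2 3 + d.1 6)) rfl rfl rfl
  have p1 := upp 1 (c.1 1 - c.2 6) (-(c.2 4 + c.1 7)) (d.1 1 - d.2 6) (-(d.2 4 + d.1 7)) rfl rfl rfl
  have p2 := upp 2 (c.1 2 - c.2 7) (-(c.2 5)) (d.1 2 - d.2 7) (-(d.2 5)) rfl rfl rfl
  obtain ⟨g3, c20, d10, d20⟩ := q3
  obtain ⟨g4, c21, d11, d21⟩ := q4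
  obtain ⟨g5, c22, d12, d22⟩ := q5
  obtain ⟨g6, c23, d13, d23⟩ := q6
  obtain ⟨g7, c24, d14, d24⟩ := q7
  obtain ⟨g8, c25, d15, d25⟩ := q8
  obtain ⟨g9, c26, d16, d26⟩ := q9
  obtain ⟨g10, c27, d17, d27⟩ := q10
  obtain ⟨g0, p0a, p0b, p0c, p0d⟩ := p0
  obtain ⟨g1, p1a, p1b, p1c, p1d⟩ := p1
  obtain ⟨g2, p2a, p2b, p2c, p2d⟩ := p2
  have c13 : c.1 3 = 0 := by linear_combination -p0b - d23 - d16
  have c14 : c.1 4 = 0 := by linear_combination -p1b - d24 - d17
  have c15 : c.1 5 = 0 := by linear_combination -p2b - d25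
  have c11 : c.1 1 = 0 := by linear_combination p1a + c26
  have c12 : c.1 2 = 0 := by linear_combination p2a + c27
  rw [p0a] at g3
  rw [c11] at g4
  rw [c12] at g5
  rw [c13] at g6
  rw [c14] at g7
  rw [c15] at g8
  refine ⟨c.1 6, c.1 7, ?_, g9, g10, ?_, ?_, ?_, ?_, ?_, ?_⟩
  · intro p hp9 hp10
    fin_cases p
    · exact g0
    · exact g1
    · exact g2
    · rw [← C_0]; exact g3
    · rw [← C_0]; exact g4
    · rw [← C_0]; exact g5
    · rw [← C_0]; exact g6
    · rw [← C_0]; exact g7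
    · rw [← C_0]; exact g8
    · exact absurd rfl hp9
    · exact absurd rfl hp10
  · rw [p0d, d10]; simp
  · rw [p1d, d11, d26]; simp
  · rw [p2d, d12, d27]; simp
  · rw [p0c, c23]; simp
  · rw [p1c, c24]; simp
  · rw [p2c, c25]; simp

def f1 : Fin 7 → ℤ := ![1, 1, 1, 2, 2, 2, 2]

noncomputable def w1 : Fin 6 → Fin 7 → RR :=
  ![![X 0, 0, 0, 0, X 1 ^ 2, 0, 0],
    ![X 1, 0, 0, -X 0 ^ 2, 0, 0, 0],
    ![0, X 0, 0, 0, 0, X 1 ^ 2, 0],
    ![0, X 1, 0, 0, -X 0 ^ 2, 0, 0],
    ![0, 0, X 0, 0, 0, 0, X 1 ^ 2],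
    ![0, 0, X 1, 0, 0, -X 0 ^ 2, 0]]

theorem hw1 : ∀ l j, w1 l j ∈ Hd (f1 j) := by
  have a1 : ∀ i : Fin 2, (X i : RR) ∈ Hd 1 := fun i => ⟨isHomogeneous_X _ _, fun h => by omega⟩
  have a2 : ∀ i : Fin 2, (X i ^ 2 : RR) ∈ Hd 2 :=
    fun i => ⟨isHomogeneous_X_pow i 2, fun h => by omega⟩
  intro l j
  fin_cases l <;> fin_cases j <;> simp [w1, f1, a1, a2]

theorem cert1 (G : Fin 11 → Fin 7 → RR) (hG : ∀ i j, G i j ∈ Hd (e0 i - f1 j))
    (h : ∀ l, (fun i => ∑ j, G i j * w1 l j) ∈ V0) : G = 0 := by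
  have k0 : (fun i => ∑ j, G i j * w1 0 j) = (fun p => G p 0 * X 0 + G p 4 * X 1 ^ 2) := by
    funext p
    simp [w1, Fin.sum_univ_seven]
  have k1 : (fun i => ∑ j, G i j * w1 1 j) = (fun p => G p 0 * X 1 - G p 3 * X 0 ^ 2) := by
    funext p
    simp [w1, Fin.sum_univ_seven]
    ring
  have k2 : (fun i => ∑ j, G i j * w1 2 j) = (fun p => G p 1 * X 0 + G p 5 * X 1 ^ 2) := by
    funext p
    simp [w1, Fin.sum_univ_seven]
  have k3 : (fun i => ∑ j, G i j * w1 3 j) = (fun p => G p 1 * X 1 - G p 4 * X 0 ^ 2) := by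
    funext p
    simp [w1, Fin.sum_univ_seven]
    ring
  have k4 : (fun i => ∑ j, G i j * w1 4 j) = (fun p => G p 2 * X 0 + G p 6 * X 1 ^ 2) := by
    funext p
    simp [w1, Fin.sum_univ_seven]
  have k5 : (fun i => ∑ j, G i j * w1 5 j) = (fun p => G p 2 * X 1 - G p 5 * X 0 ^ 2) := by
    funext p
    simp [w1, Fin.sum_univ_seven]
    ring
  have h0 := h 0
  have h1 := h 1
  have h2 := h 2
  have h3 := h 3
  have h4 := h 4
  have h5 := h 5
  rw [k0] at h0
  rw [k1] at h1
  rw [k2] at h2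
  rw [k3] at h3
  rw [k4] at h4
  rw [k5] at h5
  have s1 := step (fun p => G p 0) (fun p => G p 3) (fun p => G p 4) (fun p => hG p 0)
    (fun p => hG p 3) (fun p => hG p 4) h0 h1
  have s2 := step (fun p => G p 1) (fun p => G p 4) (fun p => G p 5) (fun p => hG p 1)
    (fun p => hG p 4) (fun p => hG p 5) h2 h3
  have s3 := step (fun p => G p 2) (fun p => G p 5) (fun p => G p 6) (fun p => hG p 2)
    (fun p => hG p 5) (fun p => hG p 6) h4 h5
  obtain ⟨s, t, g1, g19, g110, a1, a2, a3, a4, a5, a6⟩ := s1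
  obtain ⟨s', t', g2, g29, g210, b1, b2, b3, b4, b5, b6⟩ := s2
  obtain ⟨s'', t'', g3, g39, g310, c1, c2, c3, c4, c5, c6⟩ := s3
  beta_reduce at *
  have Cinj : Function.Injective (C : ℂ → RR) := C_injective _ _
  have hs : s = 0 := by
    have : C (-s) = (C 0 : RR) := by rw [← a4, b1, C_0]
    have := Cinj this
    linear_combination -this
  have hs' : s' = 0 := by
    have : C (-s') = (C 0 : RR) := by rw [← b4, c1, C_0]
    have := Cinj this
    linear_combination -this
  have ht' : t' = 0 := by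
    have : C t' = (C 0 : RR) := by rw [← b3, a6, C_0]
    exact Cinj this
  have ht'' : t'' = 0 := by
    have : C t'' = (C 0 : RR) := by rw [← c3, b6, C_0]
    exact Cinj this
  have ht : t = 0 := by
    have : C (-t) = (C s' : RR) := by rw [← a5, b2]
    have := Cinj this
    linear_combination -this - hs'
  have hs'' : s'' = 0 := by
    have : C (-t') = (C s'' : RR) := by rw [← b5, c2]
    have := Cinj this
    linear_combination -this - ht'
  subst hs hs' hs'' ht ht' ht''
  have hlow : ∀ (p : Fin 11) (j : Fin 7), e0 p - f1 j < 0 → G p j = 0 := fun p j hp => hdneg hp (hG p j)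
  funext p j
  simp only [Pi.zero_apply]
  fin_cases j
  · by_cases h9 : p = 9
    · subst h9; simpa using g19
    by_cases h10 : p = 10
    · subst h10; simpa using g110
    exact g1 p h9 h10
  · by_cases h9 : p = 9
    · subst h9; simpa using g29
    by_cases h10 : p = 10
    · subst h10; simpa using g210
    exact g2 p h9 h10
  · by_cases h9 : p = 9
    · subst h9; simpa using g39
    by_cases h10 : p = 10
    · subst h10; simpa using g310
    exact g3 p h9 h10
  · fin_cases p
    · exact a1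
    · simpa using a2
    · simpa using a3
    all_goals exact hlow _ _ (by decide)
  · fin_cases p
    · exact b1
    · simpa using b2
    · simpa using b3
    all_goals exact hlow _ _ (by decide)
  · fin_cases p
    · exact c1
    · simpa using c2
    · simpa using c3
    all_goals exact hlow _ _ (by decide)
  · fin_cases p
    · simpa using c4
    · simpa using c5
    · exact c6
    all_goals exact hlow _ _ (by decide)




noncomputable def w2 : Fin 1 → Fin 3 → RR := ![![X 0 ^ 2, X 0 * X 1, X 1 ^ 2]]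

def f2 : Fin 3 → ℤ := ![2, 2, 2]

theorem hw2 : ∀ l j, w2 l j ∈ Hd (f2 j) := by
  have a1 : ∀ i : Fin 2, (X i : RR) ∈ Hd 1 := fun i => ⟨isHomogeneous_X _ _, fun h => by omega⟩
  have a2 : ∀ i : Fin 2, (X i ^ 2 : RR) ∈ Hd 2 :=
    fun i => ⟨isHomogeneous_X_pow i 2, fun h => by omega⟩
  have a3 : (X 0 * X 1 : RR) ∈ Hd 2 := by
    have := Hd_mul (a1 0) (a1 1)
    simpa using this
  intro l j
  fin_cases l <;> fin_cases j <;> simp [w2, f2, a2, a3]

theorem cert2 (G : Fin 11 → Fin 3 → RR) (hG : ∀ i j, G i j ∈ Hd (e0 i - f2 j))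
    (h : ∀ l, (fun i => ∑ j, G i j * w2 l j) ∈ V0) : G = 0 := by
  have h0 := h 0
  have k0 : (fun i => ∑ j, G i j * w2 0 j) =
      (fun p => G p 0 * X 0 ^ 2 + G p 1 * (X 0 * X 1) + G p 2 * X 1 ^ 2) := by
    funext p
    simp [w2, Fin.sum_univ_three]
  rw [k0] at h0
  obtain ⟨c, hc⟩ := h0
  have hf2 : ∀ j : Fin 3, f2 j = 2 := by decide
  have hlow : ∀ p : Fin 11, e0 p = 1 → ∀ j, G p j = 0 := by
    intro p hp j
    exact hdneg (by rw [hf2, hp]; norm_num) (hG p j)
  have hconst : ∀ p : Fin 11, e0 p = 2 → ∀ j, ∃ x : ℂ, G p j = C x := by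
    intro p hp j
    have := hG p j
    rw [hf2, hp] at this
    exact hd0 this
  have low : ∀ (p : Fin 11) (a b : ℂ), e0 p = 1 → Lam c p = C a * X 0 + C b * X 1 →
      a = 0 ∧ b = 0 := by
    intro p a b hp hca
    have e1 := congrFun hc p
    beta_reduce at e1
    rw [hca, hlow p hp, hlow p hp, hlow p hp] at e1
    exact lin_eq (a := a) (b := b) (a' := 0) (b' := 0) (by rw [e1]; simp)
  have q3 := low 3 (c.1 0) (c.2 0) rfl rfl
  have q4 := low 4 (c.1 1) (c.2 1) rfl rfl
  have q5 := low 5 (c.1 2) (c.2 2) rfl rfl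
  have q6 := low 6 (c.1 3) (c.2 3) rfl rfl
  have q7 := low 7 (c.1 4) (c.2 4) rfl rfl
  have q8 := low 8 (c.1 5) (c.2 5) rfl rfl
  have q9 := low 9 (c.1 6) (c.2 6) rfl rfl
  have q10 := low 10 (c.1 7) (c.2 7) rfl rfl
  have upp : ∀ (p : Fin 11) (a b : ℂ), e0 p = 2 → a = 0 → b = 0 →
      Lam c p = C a * X 0 ^ 2 + C b * X 1 ^ 2 → ∀ j, G p j = 0 := by
    intro p a b hp ha hb hca
    obtain ⟨x, hx⟩ := hconst p hp 0
    obtain ⟨y, hy⟩ := hconst p hp 1
    obtain ⟨z, hz⟩ := hconst p hp 2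
    have e1 := congrFun hc p
    beta_reduce at e1
    rw [hca, hx, hy, hz] at e1
    have l1 := quad_eq (a := a) (b := 0) (c := b) (a' := x) (b' := y) (c' := z)
      (by simp only [map_zero]; linear_combination e1)
    obtain ⟨l1a, l1b, l1c⟩ := l1
    intro j
    fin_cases j
    · show G p 0 = 0
      rw [hx, ← l1a, ha, C_0]
    · show G p 1 = 0
      rw [hy, ← l1b, C_0]
    · show G p 2 = 0
      rw [hz, ← l1c, hb, C_0]
  have p0 := upp 0 (c.1 0) (-(c.2 3 + c.1 6)) rfl q3.1 (by rw [q6.2, q9.1]; simp) rfl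
  have p1 := upp 1 (c.1 1 - c.2 6) (-(c.2 4 + c.1 7)) rfl (by rw [q4.1, q9.2]; simp)
    (by rw [q7.2, q10.1]; simp) rfl
  have p2 := upp 2 (c.1 2 - c.2 7) (-(c.2 5)) rfl (by rw [q5.1, q10.2]; simp)
    (by rw [q8.2]; simp) rfl
  funext p j
  simp only [Pi.zero_apply]
  fin_cases p
  · exact p0 j
  · exact p1 j
  · exact p2 j
  all_goals exact hlow _ rfl j

theorem ineq1 (b : ℤ) : (6 : ℤ) * ((b + 1).toNat : ℤ) - ((∑ i, (b - f1 i + 1).toNat : ℕ) : ℤ) ≤ 10 - b := by
  simp only [f1, Fin.sum_univ_seven]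
  simp
  omega

theorem ineq2 (b : ℤ) : ((b + 1).toNat : ℤ) - ((∑ i, (b - f2 i + 1).toNat : ℕ) : ℤ) ≤ 4 - 2 * b := by
  simp only [f2, Fin.sum_univ_three]
  simp
  omega

theorem stable0 (α : ℝ) (hα1 : 1 / 2 < α) (hα2 : α < 6) (m : ℕ) (b : Fin m → ℤ)
    (M : Fin 11 → Fin m → RR) (hm : 1 ≤ m)
    (hMd : ∀ i j, M i j ∈ Hd (e0 i - b j))
    (hM : LinearIndependent RR (fun j : Fin m => fun i : Fin 11 => M i j))
    (V' : Submodule ℂ (Fin 11 → RR)) (hV' : V' ≤ V0 ⊓ (HE b).map (mulMap M))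
    (hne : ¬ (m = 11 ∧ ∑ j, b j = 14 ∧ V' = V0)) :
    (((∑ j, b j : ℤ) : ℝ) + α * (Module.finrank ℂ V' : ℝ)) / (m : ℝ)
      < (14 + α * 16) / 11 := by
  have c1 := cert_ineq e0 V0 f1 w1 hw1 cert1 b M hMd hM
  have c2 := cert_ineq e0 V0 f2 w2 hw2 cert2 b M hMd hM
  have hm11 : m ≤ 11 := by
    have := hM.fintype_card_le_finrank
    simpa using this
  have hfinV0 : FiniteDimensional ℂ V0 := Submodule.finiteDimensional_of_le V0_le
  have hfinI : FiniteDimensional ℂ ↥(V0 ⊓ (HE b).map (mulMap M)) :=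
    Submodule.finiteDimensional_of_le (inf_le_left : V0 ⊓ (HE b).map (mulMap M) ≤ V0)
  have hκ' : Module.finrank ℂ V' ≤ Module.finrank ℂ ↥(V0 ⊓ (HE b).map (mulMap M)) :=
    Submodule.finrank_mono hV'
  set κ := Module.finrank ℂ V' with hκ
  set S := ∑ j, b j with hS
  have d1 : S + (6 : ℤ) * κ ≤ 10 * m := by
    have h1 : ((∑ j, ∑ i, (b j - f1 i + 1).toNat : ℕ) : ℤ) +
        6 * (Module.finrank ℂ ↥(V0 ⊓ (HE b).map (mulMap M)) : ℤ) ≤
        6 * ((∑ j, (b j + 1).toNat : ℕ) : ℤ) := by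
      exact_mod_cast c1
    have h2 : ∑ j, ((6 : ℤ) * ((b j + 1).toNat : ℤ) - ((∑ i, (b j - f1 i + 1).toNat : ℕ) : ℤ))
        ≤ ∑ j, (10 - b j) := Finset.sum_le_sum (fun j _ => ineq1 (b j))
    rw [Finset.sum_sub_distrib, Finset.sum_sub_distrib, ← Finset.mul_sum] at h2
    simp only [Finset.sum_const, Finset.card_univ, Fintype.card_fin, nsmul_eq_mul] at h2
    have h3 : (κ : ℤ) ≤ (Module.finrank ℂ ↥(V0 ⊓ (HE b).map (mulMap M)) : ℤ) := by
      exact_mod_cast hκ'
    push_cast at h1 h2 ⊢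
    linarith
  have d2 : 2 * S + (κ : ℤ) ≤ 4 * m := by
    have h1 : ((∑ j, ∑ i, (b j - f2 i + 1).toNat : ℕ) : ℤ) +
        1 * (Module.finrank ℂ ↥(V0 ⊓ (HE b).map (mulMap M)) : ℤ) ≤
        1 * ((∑ j, (b j + 1).toNat : ℕ) : ℤ) := by
      exact_mod_cast c2
    have h2 : ∑ j, (((b j + 1).toNat : ℤ) - ((∑ i, (b j - f2 i + 1).toNat : ℕ) : ℤ))
        ≤ ∑ j, (4 - 2 * b j) := Finset.sum_le_sum (fun j _ => ineq2 (b j))
    rw [Finset.sum_sub_distrib, Finset.sum_sub_distrib, ← Finset.mul_sum] at h2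
    simp only [Finset.sum_const, Finset.card_univ, Fintype.card_fin, nsmul_eq_mul] at h2
    have h3 : (κ : ℤ) ≤ (Module.finrank ℂ ↥(V0 ⊓ (HE b).map (mulMap M)) : ℤ) := by
      exact_mod_cast hκ'
    push_cast at h1 h2 ⊢
    linarith
  have hmpos : (0 : ℝ) < m := by exact_mod_cast hm
  rw [div_lt_div_iff₀ hmpos (by norm_num)]
  have r1 : (S : ℝ) + 6 * (κ : ℝ) ≤ 10 * (m : ℝ) := by exact_mod_cast d1
  have r2 : 2 * (S : ℝ) + (κ : ℝ) ≤ 4 * (m : ℝ) := by exact_mod_cast d2
  by_cases hs1 : S + (6 : ℤ) * κ = 10 * m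
  · by_cases hs2 : 2 * S + (κ : ℤ) = 4 * m
    · exfalso
      apply hne
      have hm' : m = 11 := by omega
      have hS' : S = 14 := by omega
      have hκ16 : κ = 16 := by omega
      refine ⟨hm', hS', ?_⟩
      apply Submodule.eq_of_le_of_finrank_eq (hV'.trans inf_le_left)
      rw [finrank_V0, ← hκ16]
    · have r2' : 2 * (S : ℝ) + (κ : ℝ) < 4 * (m : ℝ) := by
        exact_mod_cast lt_of_le_of_ne d2 hs2
      nlinarith [mul_lt_mul_of_pos_left r2' (by linarith : (0 : ℝ) < 6 - α),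
        mul_le_mul_of_nonneg_left r1 (by linarith : (0 : ℝ) ≤ 2 * α - 1)]
  · have r1' : (S : ℝ) + 6 * (κ : ℝ) < 10 * (m : ℝ) := by
      exact_mod_cast lt_of_le_of_ne d1 hs1
    nlinarith [mul_lt_mul_of_pos_left r1' (by linarith : (0 : ℝ) < 2 * α - 1),
      mul_le_mul_of_nonneg_left r2 (by linarith : (0 : ℝ) ≤ 6 - α)]




noncomputable def Phi : RR →ₐ[ℂ] Polynomial RR :=
  MvPolynomial.aeval (fun i => Polynomial.C (X i) * Polynomial.X)

theorem Phi_monomial (d : Fin 2 →₀ ℕ) (c : ℂ) :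
    Phi (monomial d c) = Polynomial.C (monomial d c) * Polynomial.X ^ d.degree := by
  rw [Phi, aeval_monomial, Finsupp.prod_fintype _ _ (by intro i; simp), Finsupp.degree_eq_sum]
  simp only [mul_pow]
  rw [Finset.prod_mul_distrib, Finset.prod_pow_eq_pow_sum, ← mul_assoc]
  congr 1
  rw [monomial_eq, Finsupp.prod_fintype _ _ (by intro i; simp), map_mul, map_prod]
  simp only [map_pow]
  rfl

theorem Phi_coeff (f : RR) (k : ℕ) : (Phi f).coeff k = homogeneousComponent k f := by
  induction f using MvPolynomial.induction_on' with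
  | monomial u a =>
    rw [Phi_monomial, Polynomial.coeff_C_mul_X_pow]
    split_ifs with h
    · rw [homogeneousComponent_of_mem (n := k) (m := k) (isHomogeneous_monomial a h.symm)]
      simp
    · rw [homogeneousComponent_of_mem (n := u.degree) (m := k) (isHomogeneous_monomial a rfl)]
      simp [h]
  | add p q hp hq => rw [map_add, Polynomial.coeff_add, hp, hq, map_add]

theorem hom_of_mul {f g : RR} {n : ℕ} (hfg : (f * g).IsHomogeneous n) (hne : f * g ≠ 0) :
    ∃ a b, a + b = n ∧ f.IsHomogeneous a ∧ g.IsHomogeneous b := by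
  have key : ∀ f : RR, (Phi f).natDegree = (Phi f).natTrailingDegree →
      f.IsHomogeneous (Phi f).natDegree := by
    intro f hf
    have h1 : homogeneousComponent (Phi f).natDegree f = f := by
      conv_rhs => rw [← sum_homogeneousComponent (φ := f)]
      symm
      by_cases h0 : f = 0
      · subst h0; simp
      rw [Finset.sum_eq_single (Phi f).natDegree]
      · intro k _ hk
        rw [← Phi_coeff]
        rcases lt_or_gt_of_ne hk with h | h
        · exact Polynomial.coeff_eq_zero_of_lt_natTrailingDegree (by omega)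
        · exact Polynomial.coeff_eq_zero_of_natDegree_lt h
      · intro hk
        apply homogeneousComponent_eq_zero
        simpa using hk
    have h2 := homogeneousComponent_isHomogeneous (Phi f).natDegree f
    rwa [h1] at h2
  have hPhi : Phi f * Phi g = Polynomial.C (f * g) * Polynomial.X ^ n := by
    rw [← map_mul]
    refine Polynomial.ext (fun k => ?_)
    rw [Phi_coeff, Polynomial.coeff_C_mul_X_pow]
    exact homogeneousComponent_of_mem hfg
  have hne' : Phi f * Phi g ≠ 0 := by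
    rw [hPhi]
    exact mul_ne_zero (by simpa using hne) (pow_ne_zero _ Polynomial.X_ne_zero)
  have hf0 : Phi f ≠ 0 := left_ne_zero_of_mul hne'
  have hg0 : Phi g ≠ 0 := right_ne_zero_of_mul hne'
  have e1 : (Phi f).natDegree + (Phi g).natDegree = n := by
    rw [← Polynomial.natDegree_mul hf0 hg0, hPhi, Polynomial.natDegree_C_mul_X_pow n _ hne]
  have e2 : (Phi f).natTrailingDegree + (Phi g).natTrailingDegree = n := by
    rw [← Polynomial.natTrailingDegree_mul hf0 hg0, hPhi,
      Polynomial.natTrailingDegree_mul_X_pow (by simpa using hne), Polynomial.natTrailingDegree_C,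
      zero_add]
  have l1 := Polynomial.natTrailingDegree_le_natDegree (Phi f)
  have l2 := Polynomial.natTrailingDegree_le_natDegree (Phi g)
  exact ⟨_, _, e1, key f (by omega), key g (by omega)⟩



/-- If `u1 = G w` with `w` primitive and `q u2 = p w`, then `w` divides `u2`. -/
theorem prim_factor {n : ℕ} (u1 u2 : Fin n → RR) (hu1 : u1 ≠ 0) (p q : RR) (hq : q ≠ 0)
    (hpq : ∀ i, p * u1 i = q * u2 i) :
    ∃ (g h : RR) (w : Fin n → RR), (∀ i, u1 i = g * w i) ∧ (∀ i, u2 i = h * w i) := by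
  classical
  let _ : StrongNormalizationMonoid RR := UniqueFactorizationMonoid.strongNormalizationMonoid
  let _ : StrongNormalizedGCDMonoid RR := UniqueFactorizationMonoid.toStrongNormalizedGCDMonoid RR
  obtain ⟨i0, hi0⟩ := Function.ne_iff.mp hu1
  obtain ⟨w, hw1, hw2⟩ := Finset.extract_gcd (s := Finset.univ) u1 ⟨i0, Finset.mem_univ _⟩
  set g := Finset.univ.gcd u1 with hg
  have hdvd : q ∣ Finset.univ.gcd (fun i => (p * g) * w i) := by
    apply Finset.dvd_gcd
    intro i _
    exact ⟨u2 i, by rw [← hpq i, hw1 i (Finset.mem_univ _)]; ring⟩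
  rw [Finset.gcd_mul_left, hw2, mul_one, dvd_normalize_iff] at hdvd
  obtain ⟨h, hh⟩ := hdvd
  refine ⟨g, h, w, fun i => hw1 i (Finset.mem_univ _), fun i => ?_⟩
  have h1 : q * u2 i = q * (h * w i) := by
    rw [← hpq i, hw1 i (Finset.mem_univ _), ← mul_assoc, hh]
    ring
  exact mul_left_cancel₀ hq h1

theorem rank1 {n : ℕ} (d : Fin n → ℤ) (u1 u2 : Fin n → RR) (h1 : u1 ∈ HE d) (h2 : u2 ∈ HE d)
    (hne : u1 ≠ 0 ∨ u2 ≠ 0) (p q : RR) (hpq0 : p ≠ 0 ∨ q ≠ 0)
    (hpq : ∀ i, p * u1 i = q * u2 i) :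
    ∃ (c : ℕ) (w : Fin n → RR) (g h : RR), w ≠ 0 ∧ (∀ i, w i ∈ Hd (d i - c)) ∧
      g ∈ Hd c ∧ h ∈ Hd c ∧ (g ≠ 0 ∨ h ≠ 0) ∧ (∀ i, u1 i = g * w i) ∧ (∀ i, u2 i = h * w i) := by
  have hone : (1 : RR) ∈ Hd ((0 : ℕ) : ℤ) := ⟨isHomogeneous_one _ _, fun h => by simp at h⟩
  by_cases hu1 : u1 = 0
  · subst hu1
    have hu2 : u2 ≠ 0 := by simpa using hne
    refine ⟨0, u2, 0, 1, hu2, ?_, (Hd _).zero_mem, hone, Or.inr one_ne_zero, ?_, ?_⟩
    · intro i
      simpa using h2 i
    · intro i; simp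
    · intro i; simp
  obtain ⟨i0, hi0⟩ := Function.ne_iff.mp hu1
  simp only [Pi.zero_apply] at hi0
  have hq : q ≠ 0 := by
    rintro rfl
    have hp : p ≠ 0 := by simpa using hpq0
    have := hpq i0
    rw [zero_mul] at this
    rcases mul_eq_zero.mp this with h | h
    · exact hp h
    · exact hi0 h
  obtain ⟨g, h, w, hg, hh⟩ := prim_factor u1 u2 hu1 p q hq hpq
  have hgw : g * w i0 ≠ 0 := by rw [← hg]; exact hi0
  have hg0 : g ≠ 0 := left_ne_zero_of_mul hgw
  have hw0 : w i0 ≠ 0 := right_ne_zero_of_mul hgw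
  have hdpos : ∀ i, u1 i ≠ 0 → 0 ≤ d i := by
    intro i hi
    by_contra hneg
    push Not at hneg
    exact hi ((h1 i).2 hneg)
  have hi0h : (g * w i0).IsHomogeneous (d i0).toNat := by rw [← hg]; exact (h1 i0).1
  obtain ⟨c, k, hck, hgc, hwk⟩ := hom_of_mul hi0h hgw
  have hd0 := hdpos i0 hi0
  have hwdeg : ∀ i, w i ∈ Hd (d i - c) := by
    intro i
    by_cases hwi : w i = 0
    · rw [hwi]; exact (Hd _).zero_mem
    have hne1 : g * w i ≠ 0 := mul_ne_zero hg0 hwi
    have hi : (g * w i).IsHomogeneous (d i).toNat := by rw [← hg]; exact (h1 i).1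
    have hdi := hdpos i (by rw [hg]; exact hne1)
    obtain ⟨c', k', hck', hgc', hwk'⟩ := hom_of_mul hi hne1
    have hcc : c' = c := hgc'.inj_right hgc hg0
    subst hcc
    have e : (d i - (c' : ℤ)) = (k' : ℤ) := by omega
    rw [e]
    exact ⟨by simpa using hwk', fun h => by omega⟩
  have hhdeg : h ∈ Hd (c : ℤ) := by
    by_cases hh0 : h = 0
    · rw [hh0]; exact (Hd _).zero_mem
    have hne1 : h * w i0 ≠ 0 := mul_ne_zero hh0 hw0
    have hi : (h * w i0).IsHomogeneous (d i0).toNat := by rw [← hh]; exact (h2 i0).1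
    obtain ⟨c', k', hck', hhc', hwk'⟩ := hom_of_mul hi hne1
    have hkk : k' = k := hwk'.inj_right hwk hw0
    have hcc : c' = c := by omega
    subst hcc
    exact ⟨by simpa using hhc', fun h => by omega⟩
  refine ⟨c, w, g, h, ?_, hwdeg, ⟨by simpa using hgc, fun h => by omega⟩, hhdeg, Or.inl hg0, hg, hh⟩
  intro hw
  exact hw0 (congrFun hw i0)




theorem one_le_finrank_pair {W : Submodule ℂ (Fin 11 → RR)} [FiniteDimensional ℂ W]
    (v1 v2 : Fin 11 → RR) (h1 : v1 ∈ W) (h2 : v2 ∈ W) (hli : LinearIndependent ℂ ![v1, v2]) :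
    2 ≤ Module.finrank ℂ W := by
  have : Submodule.span ℂ (Set.range ![v1, v2]) ≤ W := by
    rw [Submodule.span_le]
    rintro x ⟨i, rfl⟩
    fin_cases i
    · exact h1
    · exact h2
  have h3 := Submodule.finrank_mono this
  rw [finrank_span_eq_card hli] at h3
  simpa using h3

theorem three_le_finrank {W : Submodule ℂ (Fin 11 → RR)} [FiniteDimensional ℂ W]
    (v1 v2 v3 : Fin 11 → RR) (h1 : v1 ∈ W) (h2 : v2 ∈ W) (h3 : v3 ∈ W)
    (hli : LinearIndependent ℂ ![v1, v2, v3]) :
    3 ≤ Module.finrank ℂ W := by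
  have : Submodule.span ℂ (Set.range ![v1, v2, v3]) ≤ W := by
    rw [Submodule.span_le]
    rintro x ⟨i, rfl⟩
    fin_cases i
    · exact h1
    · exact h2
    · exact h3
  have h3 := Submodule.finrank_mono this
  rw [finrank_span_eq_card hli] at h3
  simpa using h3

/-- the key dimension count -/
theorem kernel_exists (e : Fin 11 → ℤ) (V : Submodule ℂ (Fin 11 → RR)) (hsum : ∑ i, e i = 14)
    (hfin : Module.finrank ℂ V = 16) (hV : V ≤ HE e) (hpos : ∀ i, 0 ≤ e i) :
    ∃ u1 u2 : Fin 11 → RR, u1 ∈ HE (fun i => e i - 1) ∧ u2 ∈ HE (fun i => e i - 1) ∧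
      (u1 ≠ 0 ∨ u2 ≠ 0) ∧ (fun i => X 1 * u1 i) ∈ V ∧
      (fun i => X 1 * u2 i - X 0 * u1 i) ∈ V ∧ (fun i => X 0 * u2 i) ∈ V := by
  let H1 := HE (fun i => e i - 1)
  let H0 := HE e
  have hX : ∀ i : Fin 2, (X i : RR) ∈ Hd 1 := fun i => ⟨isHomogeneous_X _ _, fun h => by omega⟩
  have hXm : ∀ (i : Fin 2) (u : Fin 11 → RR), u ∈ H1 → (fun k => X i * u k) ∈ H0 := by
    intro i u hu k
    have := Hd_mul (hX i) (hu k)
    simpa using this
  have hVfin : FiniteDimensional ℂ V := Submodule.finiteDimensional_of_le hV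
  let T : ((H1 × H1) × (V × V × V)) →ₗ[ℂ] (H0 × H0 × H0) :=
    { toFun := fun x =>
        (⟨(fun k => X 1 * x.1.1.1 k) - x.2.1.1, H0.sub_mem (hXm 1 _ x.1.1.2) (hV x.2.1.2)⟩,
         ⟨(fun k => X 1 * x.1.2.1 k) - (fun k => X 0 * x.1.1.1 k) - x.2.2.1.1,
            H0.sub_mem (H0.sub_mem (hXm 1 _ x.1.2.2) (hXm 0 _ x.1.1.2)) (hV x.2.2.1.2)⟩,
         ⟨(fun k => X 0 * x.1.2.1 k) - x.2.2.2.1, H0.sub_mem (hXm 0 _ x.1.2.2) (hV x.2.2.2.2)⟩)
      map_add' := by
        intro x y
        refine Prod.ext ?_ (Prod.ext ?_ ?_)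
        all_goals
          apply Subtype.ext
          funext k
          simp
          ring
      map_smul' := by
        intro c x
        refine Prod.ext ?_ (Prod.ext ?_ ?_)
        all_goals
          apply Subtype.ext
          funext k
          simp [smul_sub] }
  have hH1 : Module.finrank ℂ H1 = 14 := by
    have : Module.finrank ℂ H1 = ∑ i, (e i - 1 + 1).toNat := finrank_HE _
    rw [this]
    have h2 : ((∑ i, (e i - 1 + 1).toNat : ℕ) : ℤ) = 14 := by
      rw [← hsum]
      push_cast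
      refine Finset.sum_congr rfl (fun i _ => ?_)
      have := hpos i
      omega
    exact_mod_cast h2
  have hH0 : Module.finrank ℂ H0 = 25 := by
    have : Module.finrank ℂ H0 = ∑ i, (e i + 1).toNat := finrank_HE _
    rw [this]
    have h2 : ((∑ i, (e i + 1).toNat : ℕ) : ℤ) = 25 := by
      have h3 : ∑ i, (e i + 1) = 25 := by
        rw [Finset.sum_add_distrib, hsum]; simp
      rw [← h3]
      push_cast
      refine Finset.sum_congr rfl (fun i _ => ?_)
      have := hpos i
      omega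
    exact_mod_cast h2
  have hker : LinearMap.ker T ≠ ⊥ := by
    apply LinearMap.ker_ne_bot_of_finrank_lt
    simp only [Module.finrank_prod, hH1, hH0, hfin]
    norm_num
  obtain ⟨x, hx, hx0⟩ := Submodule.exists_mem_ne_zero_of_ne_bot hker
  rw [LinearMap.mem_ker] at hx
  have hx1 := congrArg (fun z => (z.1 : Fin 11 → RR)) hx
  have hx2 := congrArg (fun z => (z.2.1 : Fin 11 → RR)) hx
  have hx3 := congrArg (fun z => (z.2.2 : Fin 11 → RR)) hx
  have hx1' : (fun k => X 1 * x.1.1.1 k) = x.2.1.1 := sub_eq_zero.mp hx1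
  have hx2' : (fun k => X 1 * x.1.2.1 k) - (fun k => X 0 * x.1.1.1 k) = x.2.2.1.1 := sub_eq_zero.mp hx2
  have hx3' : (fun k => X 0 * x.1.2.1 k) = x.2.2.2.1 := sub_eq_zero.mp hx3
  refine ⟨x.1.1.1, x.1.2.1, x.1.1.2, x.1.2.2, ?_, ?_, ?_, ?_⟩
  · by_contra hcon
    push Not at hcon
    obtain ⟨a1, a2⟩ := hcon
    apply hx0
    have b1 : x.1.1 = 0 := Subtype.ext a1
    have b2 : x.1.2 = 0 := Subtype.ext a2
    have b3 : x.2.1 = 0 := by
      apply Subtype.ext
      rw [← hx1', a1]
      funext k; simp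
    have b4 : x.2.2.1 = 0 := by
      apply Subtype.ext
      rw [← hx2', a1, a2]
      funext k; simp
    have b5 : x.2.2.2 = 0 := by
      apply Subtype.ext
      rw [← hx3', a2]
      funext k; simp
    exact Prod.ext (Prod.ext b1 b2) (Prod.ext b3 (Prod.ext b4 b5))
  · rw [hx1']; exact x.2.1.2
  · have : (fun i => X 1 * x.1.2.1 i - X 0 * x.1.1.1 i) = x.2.2.1.1 := hx2'
    rw [this]; exact x.2.2.1.2
  · rw [hx3']; exact x.2.2.2.2




/-- case 0 : some summand has negative degree -/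
theorem unst0 (e : Fin 11 → ℤ) (V : Submodule ℂ (Fin 11 → RR)) (hsum : ∑ i, e i = 14)
    (hfin : Module.finrank ℂ V = 16) (hV : V ≤ HE e) (i0 : Fin 11) (hi0 : e i0 < 0)
    (α : ℝ) (hα : 6 ≤ α) :
    ∃ (m : ℕ) (b : Fin m → ℤ) (M : Fin 11 → Fin m → RR), 1 ≤ m ∧
      (∀ i j, M i j ∈ Hd (e i - b j)) ∧
      LinearIndependent RR (fun j : Fin m => fun i : Fin 11 => M i j) ∧
      ¬ (m = 11 ∧ ∑ j, b j = 14) ∧
      (((14 : ℤ) : ℝ) + α * ((16 : ℕ) : ℝ)) / ((11 : ℕ) : ℝ) ≤
        ((((∑ j, b j : ℤ)) : ℝ) +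
          α * ((Module.finrank ℂ ↥(V ⊓ (HE b).map (mulMap M)) : ℕ) : ℝ)) / (m : ℝ) := by
  refine ⟨10, fun j => e (i0.succAbove j), fun i j => if i = i0.succAbove j then 1 else 0,
    by norm_num, ?_, ?_, by norm_num, ?_⟩
  · intro i j
    by_cases h : i = i0.succAbove j
    · simp only [h, if_true, sub_self]
      exact ⟨isHomogeneous_one _ _, fun h => by omega⟩
    · simp only [h, if_false]
      exact (Hd _).zero_mem
  · rw [Fintype.linearIndependent_iff]
    intro g hg j
    have := congrFun hg (i0.succAbove j)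
    simpa [Finset.sum_apply] using this
  · have hle : V ≤ (HE (fun j => e (i0.succAbove j))).map
        (mulMap (fun i j => if i = i0.succAbove j then (1 : RR) else 0)) := by
      intro s hs
      refine ⟨fun j => s (i0.succAbove j), fun j => hV hs _, ?_⟩
      funext i
      simp only [mulMap, LinearMap.coe_mk, AddHom.coe_mk, ite_mul, one_mul, zero_mul]
      by_cases h : i = i0
      · subst h
        rw [(hV hs i).2 hi0]
        apply Finset.sum_eq_zero
        intro j _
        rw [if_neg (Fin.succAbove_ne _ _).symm]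
      · obtain ⟨j, rfl⟩ := Fin.exists_succAbove_eq h
        simp
    rw [inf_eq_left.mpr hle, hfin]
    have hs : (∑ j, e (i0.succAbove j) : ℤ) = 14 - e i0 := by
      rw [← hsum, Fin.sum_univ_succAbove _ i0]; ring
    rw [hs]
    have h15 : (15 : ℝ) ≤ ((14 - e i0 : ℤ) : ℝ) := by
      have : (15 : ℤ) ≤ 14 - e i0 := by omega
      exact_mod_cast this
    rw [div_le_div_iff₀ (by norm_num) (by norm_num)]
    push_cast at h15 ⊢
    nlinarith

theorem unst1 (e : Fin 11 → ℤ) (V : Submodule ℂ (Fin 11 → RR)) (hsum : ∑ i, e i = 14)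
    (hfin : Module.finrank ℂ V = 16) (hV : V ≤ HE e) (hpos : ∀ i, 0 ≤ e i)
    (α : ℝ) (hα : 6 ≤ α) :
    ∃ (m : ℕ) (b : Fin m → ℤ) (M : Fin 11 → Fin m → RR), 1 ≤ m ∧
      (∀ i j, M i j ∈ Hd (e i - b j)) ∧
      LinearIndependent RR (fun j : Fin m => fun i : Fin 11 => M i j) ∧
      ¬ (m = 11 ∧ ∑ j, b j = 14) ∧
      (((14 : ℤ) : ℝ) + α * ((16 : ℕ) : ℝ)) / ((11 : ℕ) : ℝ) ≤
        ((((∑ j, b j : ℤ)) : ℝ) +
          α * ((Module.finrank ℂ ↥(V ⊓ (HE b).map (mulMap M)) : ℕ) : ℝ)) / (m : ℝ) := by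
  obtain ⟨u1, u2, hu1, hu2, hne, k1, k2, k3⟩ := kernel_exists e V hsum hfin hV hpos
  have hX : ∀ i : Fin 2, (X i : RR) ∈ Hd 1 := fun i => ⟨isHomogeneous_X _ _, fun h => by omega⟩
  have hVfin : FiniteDimensional ℂ V := Submodule.finiteDimensional_of_le hV
  by_cases hli : LinearIndependent RR ![u1, u2]
  · -- rank two
    refine ⟨2, fun _ => 1, fun i j => ![u1, u2] j i, by norm_num, ?_, hli, by norm_num, ?_⟩
    · intro i j
      fin_cases j
      · exact hu1 i
      · exact hu2 i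
    · have m1 : (fun i => X 1 * u1 i) ∈ V ⊓ (HE (fun _ : Fin 2 => (1 : ℤ))).map
          (mulMap (fun i j => ![u1, u2] j i)) := by
        refine ⟨k1, ![X 1, 0], ?_, ?_⟩
        · intro j
          fin_cases j
          · exact hX 1
          · exact (Hd _).zero_mem
        · funext i
          simp [mulMap, mul_comm]
      have m2 : (fun i => X 1 * u2 i - X 0 * u1 i) ∈ V ⊓ (HE (fun _ : Fin 2 => (1 : ℤ))).map
          (mulMap (fun i j => ![u1, u2] j i)) := by
        refine ⟨k2, ![-X 0, X 1], ?_, ?_⟩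
        · intro j
          fin_cases j
          · exact (Hd _).neg_mem (hX 0)
          · exact hX 1
        · funext i
          simp [mulMap]
          ring
      have m3 : (fun i => X 0 * u2 i) ∈ V ⊓ (HE (fun _ : Fin 2 => (1 : ℤ))).map
          (mulMap (fun i j => ![u1, u2] j i)) := by
        refine ⟨k3, ![0, X 0], ?_, ?_⟩
        · intro j
          fin_cases j
          · exact (Hd _).zero_mem
          · exact hX 0
        · funext i
          simp [mulMap, mul_comm]
      have hfin3 := three_le_finrank _ _ _ m1 m2 m3 (by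
        rw [Fintype.linearIndependent_iff]
        intro c hc
        rw [LinearIndependent.pair_iff] at hli
        have h0 := hli (C (c 0) * X 1 - C (c 1) * X 0) (C (c 1) * X 1 + C (c 2) * X 0) (by
          funext i
          have := congrFun hc i
          simp [Fin.sum_univ_three, MvPolynomial.smul_eq_C_mul] at this
          simp
          linear_combination this)
        obtain ⟨ha, hb⟩ := h0
        have e1 := congrArg (MvPolynomial.eval ![1, 0]) ha
        have e2 := congrArg (MvPolynomial.eval ![0, 1]) ha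
        have e3 := congrArg (MvPolynomial.eval ![1, 0]) hb
        simp at e1 e2 e3
        intro i
        fin_cases i
        · exact e2
        · exact e1
        · exact e3)
      have h3 : (3 : ℝ) ≤ ((Module.finrank ℂ ↥(V ⊓ (HE (fun _ : Fin 2 => (1 : ℤ))).map
          (mulMap (fun i j => ![u1, u2] j i))) : ℕ) : ℝ) := by exact_mod_cast hfin3
      have hs : (∑ _j : Fin 2, (1 : ℤ)) = 2 := by simp
      rw [hs, div_le_div_iff₀ (by norm_num) (by norm_num)]
      have hα' : α * 3 ≤ α * ((Module.finrank ℂ ↥(V ⊓ (HE (fun _ : Fin 2 => (1 : ℤ))).map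
          (mulMap (fun i j => ![u1, u2] j i))) : ℕ) : ℝ) :=
        mul_le_mul_of_nonneg_left h3 (by linarith)
      push_cast
      linarith
  · -- rank one
    have hpq : ∃ p q : RR, (p ≠ 0 ∨ q ≠ 0) ∧ ∀ i, p * u1 i = q * u2 i := by
      rw [LinearIndependent.pair_iff] at hli
      push Not at hli
      obtain ⟨s, t, hst, hst0⟩ := hli
      refine ⟨s, -t, ?_, ?_⟩
      · by_cases hs : s = 0
        · right; simpa using hst0 hs
        · left; exact hs
      · intro i
        have := congrFun hst i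
        simp at this
        linear_combination this
    obtain ⟨p, q, hpq0, hpq⟩ := hpq
    obtain ⟨c, w, g, h, hw0, hw, hg, hh, hgh, e1, e2⟩ :=
      rank1 (fun i => e i - 1) u1 u2 hu1 hu2 hne p q hpq0 hpq
    refine ⟨1, fun _ => (c : ℤ) + 1, fun i _ => w i, le_refl _, ?_, ?_, by norm_num, ?_⟩
    · intro i j
      have := hw i
      have e : e i - ((c : ℤ) + 1) = e i - 1 - c := by ring
      rw [e]; exact this
    · rw [Fintype.linearIndependent_iff]
      intro r hr j
      obtain ⟨i, hi⟩ := Function.ne_iff.mp hw0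
      have := congrFun hr i
      simp at this
      rcases this with h | h
      · rw [Subsingleton.elim j 0]; exact h
      · exact absurd h hi
    · have mem : ∀ u : RR, u ∈ Hd ((c : ℤ) + 1) → (fun i => u * w i) ∈ V →
          (fun i => u * w i) ∈ V ⊓ (HE (fun _ : Fin 1 => (c : ℤ) + 1)).map
          (mulMap (fun i _ => w i)) := by
        intro u hu hV
        refine ⟨hV, fun _ => u, fun _ => hu, ?_⟩
        funext i
        simp [mulMap, mul_comm]
      have hd1 : ∀ (j : Fin 2) (g : RR), g ∈ Hd (c : ℤ) → X j * g ∈ Hd ((c : ℤ) + 1) := by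
        intro j g hg
        have := Hd_mul (hX j) hg
        rwa [add_comm] at this
      have m1 := mem (X 1 * g) (hd1 1 g hg) (by
        have : (fun i => X 1 * g * w i) = (fun i => X 1 * u1 i) := by
          funext i; rw [e1]; ring
        rw [this]; exact k1)
      have m2 := mem (X 1 * h - X 0 * g) ((Hd _).sub_mem (hd1 1 h hh) (hd1 0 g hg)) (by
        have : (fun i => (X 1 * h - X 0 * g) * w i) = (fun i => X 1 * u2 i - X 0 * u1 i) := by
          funext i; rw [e1, e2]; ring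
        rw [this]; exact k2)
      have m3 := mem (X 0 * h) (hd1 0 h hh) (by
        have : (fun i => X 0 * h * w i) = (fun i => X 0 * u2 i) := by
          funext i; rw [e2]; ring
        rw [this]; exact k3)
      obtain ⟨i1, hi1⟩ := Function.ne_iff.mp hw0
      simp only [Pi.zero_apply] at hi1
      have hfin2 : 2 ≤ Module.finrank ℂ ↥(V ⊓ (HE (fun _ : Fin 1 => (c : ℤ) + 1)).map
          (mulMap (fun i _ => w i))) := by
        by_cases hg0 : g = 0
        · -- then `h ≠ 0`
          have hh0 : h ≠ 0 := by simpa [hg0] using hgh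
          refine one_le_finrank_pair _ _ m2 m3 ?_
          rw [LinearIndependent.pair_iff]
          intro s t hst
          have h1 := congrFun hst i1
          simp [hg0, MvPolynomial.smul_eq_C_mul] at h1
          have h2 : (C s * X 1 + C t * X 0) * (h * w i1) = 0 := by linear_combination h1
          have h3 : (C s * X 1 + C t * X 0 : RR) = 0 := by
            rcases mul_eq_zero.mp h2 with h | h
            · exact h
            · exact absurd h (mul_ne_zero hh0 hi1)
          have a1 := congrArg (MvPolynomial.eval ![1, 0]) h3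
          have a2 := congrArg (MvPolynomial.eval ![0, 1]) h3
          simp at a1 a2
          exact ⟨a2, a1⟩
        · by_cases hA : LinearIndependent ℂ
            ![(fun i => X 1 * g * w i), (fun i => (X 1 * h - X 0 * g) * w i)]
          · exact one_le_finrank_pair _ _ m1 m2 hA
          · refine one_le_finrank_pair _ _ m1 m3 ?_
            rw [LinearIndependent.pair_iff] at hA ⊢
            push Not at hA
            obtain ⟨s, t, hst, hst0⟩ := hA
            intro s' t' hst'
            have h1 := congrFun hst i1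
            have h1' := congrFun hst' i1
            simp [MvPolynomial.smul_eq_C_mul] at h1 h1'
            have h2 : C s * (X 1 * g) + C t * (X 1 * h - X 0 * g) = 0 := by
              have : (C s * (X 1 * g) + C t * (X 1 * h - X 0 * g)) * w i1 = 0 := by
                linear_combination h1
              rcases mul_eq_zero.mp this with h | h
              · exact h
              · exact absurd h hi1
            have h2' : C s' * (X 1 * g) + C t' * (X 0 * h) = 0 := by
              have : (C s' * (X 1 * g) + C t' * (X 0 * h)) * w i1 = 0 := by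
                linear_combination h1'
              rcases mul_eq_zero.mp this with h | h
              · exact h
              · exact absurd h hi1
            have h3 : (C (t' * s) * (X 0 * X 1) - C (t' * t) * X 0 ^ 2 - C (t * s') * X 1 ^ 2) * g = 0 := by
              simp only [map_mul]
              linear_combination (C t' * X 0) * h2 - (C t * X 1) * h2'
            have h4 : (C (t' * s) * (X 0 * X 1) - C (t' * t) * X 0 ^ 2 - C (t * s') * X 1 ^ 2 : RR) = 0 := by
              rcases mul_eq_zero.mp h3 with h | h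
              · exact h
              · exact absurd h hg0
            have a1 := congrArg (MvPolynomial.eval ![1, 0]) h4
            have a2 := congrArg (MvPolynomial.eval ![0, 1]) h4
            simp at a1 a2
            have ht : t ≠ 0 := by
              rintro rfl
              have hs : s ≠ 0 := by
                intro hs
                exact (hst0 hs) rfl
              simp at h2
              rcases h2 with h | h
              · exact hs h
              · exact hg0 h
            have ht' : t' = 0 := by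
              rcases a1 with h | h
              · exact h
              · exact absurd h ht
            have hs' : s' = 0 := by
              rcases a2 with h | h
              · exact absurd h ht
              · exact h
            exact ⟨hs', ht'⟩
      have h2 : (2 : ℝ) ≤ ((Module.finrank ℂ ↥(V ⊓ (HE (fun _ : Fin 1 => (c : ℤ) + 1)).map
          (mulMap (fun i _ => w i))) : ℕ) : ℝ) := by exact_mod_cast hfin2
      have hs : (∑ _j : Fin 1, ((c : ℤ) + 1)) = (c : ℤ) + 1 := by simp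
      rw [hs, div_le_div_iff₀ (by norm_num) (by norm_num)]
      have hc : (0 : ℝ) ≤ c := Nat.cast_nonneg c
      have hα' : α * 2 ≤ α * ((Module.finrank ℂ ↥(V ⊓ (HE (fun _ : Fin 1 => (c : ℤ) + 1)).map
          (mulMap (fun i _ => w i))) : ℕ) : ℝ) :=
        mul_le_mul_of_nonneg_left h2 (by linarith)
      push_cast
      linarith


/-- small `α`: a line subbundle `O(e i)` with `e i ≥ 2` and no sections destabilises -/
theorem unst_small (e : Fin 11 → ℤ) (hsum : ∑ i, e i = 14) : ∃ i, 2 ≤ e i := by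
  by_contra hcon
  push Not at hcon
  have : ∑ i, e i ≤ ∑ _i : Fin 11, (1 : ℤ) :=
    Finset.sum_le_sum (fun i _ => by have := hcon i; omega)
  simp [hsum] at this

theorem main : stabilitySet 11 14 16 = Set.Ioo (1 / 2 : ℝ) 6 := by
  apply Set.Subset.antisymm
  · rintro α ⟨S, hS⟩
    constructor
    · by_contra hα
      push Not at hα
      obtain ⟨i0, hi0⟩ := unst_small S.e S.degE
      have h1 := hS
        { m := 1
          b := fun _ => S.e i0
          M := fun i _ => if i = i0 then 1 else 0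
          pos := le_refl _
          degM := by
            intro i j
            by_cases h : i = i0
            · simp only [h, if_true, sub_self]
              exact ⟨isHomogeneous_one _ _, fun h => by omega⟩
            · simp only [h, if_false]
              exact (Hd _).zero_mem
          inj := by
            rw [Fintype.linearIndependent_iff]
            intro g hg j
            have := congrFun hg i0
            rw [Subsingleton.elim j 0]
            simpa using this
          V' := ⊥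
          le := bot_le } (by
            rintro ⟨h, -⟩
            simp at h)
      simp only [SubSys.deg, finrank_bot] at h1
      rw [div_lt_div_iff₀ (by norm_num) (by norm_num)] at h1
      have h2 : (2 : ℝ) ≤ (S.e i0 : ℝ) := by exact_mod_cast hi0
      simp at h1
      linarith
    · by_contra hα
      push Not at hα
      have hun : ∃ (m : ℕ) (b : Fin m → ℤ) (M : Fin 11 → Fin m → RR), 1 ≤ m ∧
          (∀ i j, M i j ∈ Hd (S.e i - b j)) ∧
          LinearIndependent RR (fun j : Fin m => fun i : Fin 11 => M i j) ∧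
          ¬ (m = 11 ∧ ∑ j, b j = 14) ∧
          (((14 : ℤ) : ℝ) + α * ((16 : ℕ) : ℝ)) / ((11 : ℕ) : ℝ) ≤
            ((((∑ j, b j : ℤ)) : ℝ) +
              α * ((Module.finrank ℂ ↥(S.V ⊓ (HE b).map (mulMap M)) : ℕ) : ℝ)) / (m : ℝ) := by
        by_cases hpos : ∀ i, 0 ≤ S.e i
        · exact unst1 S.e S.V S.degE S.dim S.le hpos α hα
        · push Not at hpos
          obtain ⟨i0, hi0⟩ := hpos
          exact unst0 S.e S.V S.degE S.dim S.le i0 hi0 α hα
      obtain ⟨m, b, M, hm, hMd, hM, hne, hle⟩ := hun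
      have h1 := hS ⟨m, b, M, hm, hMd, hM, S.V ⊓ (HE b).map (mulMap M), le_refl _⟩
        (fun h => hne ⟨h.1, h.2.1⟩)
      exact absurd h1 (not_lt.mpr hle)
  · rintro α ⟨h1, h2⟩
    refine ⟨⟨e0, by decide, V0, V0_le, finrank_V0⟩, ?_⟩
    intro T hT
    have := stable0 α h1 h2 T.m T.b T.M T.pos T.degM T.inj T.V' T.le hT
    have h3 : ((14 : ℤ) : ℝ) + α * ((16 : ℕ) : ℝ) = 14 + α * 16 := by norm_num
    have h4 : ((11 : ℕ) : ℝ) = 11 := by norm_num
    rw [h3, h4]
    exact this

/-- The set `I(11, 14, 16)` is the bounded interval `]1/2, 6[`; here `14 = 2 * 11 - 8`. Hence for some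
`n ≥ 2`, `a ≥ 2`, `1 ≤ t ≤ n - 1`, `k ≥ n` and `d = a n - t` the set `I(n, d, k)` is non-empty and
bounded above. -/
theorem result :
    stabilitySet 11 14 16 = Set.Ioo (1 / 2 : ℝ) 6 ∧
    ∃ (n k : ℕ) (a t : ℤ), 2 ≤ a ∧ 2 ≤ n ∧ 1 ≤ t ∧ t ≤ (n : ℤ) - 1 ∧ n ≤ k ∧
      (stabilitySet n (a * n - t) k).Nonempty ∧ BddAbove (stabilitySet n (a * n - t) k) := by
  refine ⟨main, 11, 16, 2, 8, by norm_num, by norm_num, by norm_num, by norm_num, by norm_num, ?_⟩
  have h : (2 * ((11 : ℕ) : ℤ) - 8 : ℤ) = 14 := by norm_num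
  rw [h, main]
  exact ⟨⟨1, by norm_num, by norm_num⟩, ⟨6, fun x hx => hx.2.le⟩⟩

end Pool.Agent.Results.MP_3738f3_ag.StabilityInterval
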